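import Pool.Agent.MP_743f82_co.H61.Data

set_option autoImplicit false

namespace Pool.Agent.MP_743f82_co.H61

theorem all6_iff (p : Fin 6 → Bool) : all6 p = true ↔ ∀ i, p i = true := by
  constructor
  · intro h i
    simp only [all6, Bool.and_eq_true] at h
    obtain ⟨⟨⟨⟨⟨h0, h1⟩, h2⟩, h3⟩, h4⟩, h5⟩ := h
    fin_cases i <;> assumption
  · intro h
    simp only [all6, h, Bool.and_self]

theorem any6_iff (p : Fin 6 → Bool) : any6 p = true → ∃ i, p i = true := by
  intro h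
  simp only [any6, Bool.or_eq_true] at h
  rcases h with ((((h | h) | h) | h) | h) | h <;> exact ⟨_, h⟩

theorem beq_iff (u v : Fin 6) : Nat.beq u.val v.val = true ↔ u = v := by
  rw [Nat.beq_eq, Fin.ext_iff]

theorem pos_symm (u v : Fin 6) : pos u v = pos v u := by
  revert u v; decide

theorem adj_symm (a : ℕ) (u v : Fin 6) : adj a u v = adj a v u := by
  unfold adj
  rw [pos_symm u v]
  congr 2
  rw [Bool.eq_iff_iff, beq_iff, beq_iff, eq_comm]

theorem adj_ne {a : ℕ} {u v : Fin 6} (h : adj a u v = true) : u ≠ v := by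
  rintro rfl
  simp [adj] at h

def dec (a : ℕ) : Finset (Sym2 (Fin 6)) :=
  Finset.univ.filter fun e => Sym2.lift ⟨fun u v => adj a u v, adj_symm a⟩ e = true

theorem mem_dec (a : ℕ) (u v : Fin 6) : s(u, v) ∈ dec a ↔ adj a u v = true := by
  simp [dec]

theorem dec_zero : dec 0 = ∅ := by
  ext e
  induction e using Sym2.ind with
  | _ u v => simp [mem_dec, adj]

theorem dec_nondiag {a : ℕ} {e : Sym2 (Fin 6)} (h : e ∈ dec a) : ¬ e.IsDiag := by
  induction e using Sym2.ind with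
  | _ u v =>
    rw [mem_dec] at h
    simpa using adj_ne h

theorem pos_inj : ∀ x y u v : Fin 6, x ≠ y → u ≠ v →
    (pos x y = pos u v ↔ ((u = x ∧ v = y) ∨ (u = y ∧ v = x))) := by
  decide

theorem dec_insert (a : ℕ) {x y : Fin 6} (h : x ≠ y) :
    dec (a ||| 2 ^ pos x y) = insert s(x, y) (dec a) := by
  ext e
  induction e using Sym2.ind with
  | _ u v =>
    rw [Finset.mem_insert, mem_dec, mem_dec, Sym2.eq_iff]
    by_cases huv : u = v
    · subst huv
      have : ¬ ((u = x ∧ u = y) ∨ (u = y ∧ u = x)) := by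
        rintro (⟨h1, h2⟩ | ⟨h1, h2⟩) <;> exact h (by rw [← h1, ← h2])
      simp [adj, this]
    · have hb : Nat.beq u.val v.val = false := by
        rw [← Bool.not_eq_true, beq_iff]; exact huv
      rw [← pos_inj x y u v h huv]
      simp only [adj, hb, Bool.not_false, Bool.true_and, Nat.testBit_or, Nat.testBit_two_pow,
        Bool.or_eq_true, decide_eq_true_eq]
      exact or_comm

def img (σ : Equiv.Perm (Fin 6)) (A : Finset (Sym2 (Fin 6))) : Finset (Sym2 (Fin 6)) :=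
  A.image (Sym2.map ⇑σ)

theorem map_inj (σ : Equiv.Perm (Fin 6)) : Function.Injective (Sym2.map ⇑σ) :=
  Sym2.map.injective σ.injective

theorem mem_img (σ : Equiv.Perm (Fin 6)) (A : Finset (Sym2 (Fin 6))) (e : Sym2 (Fin 6)) :
    Sym2.map σ e ∈ img σ A ↔ e ∈ A :=
  (map_inj σ).mem_finset_image

theorem map_surj (σ : Equiv.Perm (Fin 6)) (e : Sym2 (Fin 6)) :
    ∃ x y, e = Sym2.map σ s(x, y) := by
  induction e using Sym2.ind with
  | _ u v => exact ⟨σ.symm u, σ.symm v, by simp⟩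

theorem img_img (σ τ : Equiv.Perm (Fin 6)) (A : Finset (Sym2 (Fin 6))) :
    img σ (img τ A) = img (σ * τ) A := by
  unfold img
  rw [Finset.image_image, ← Sym2.map_comp]
  rfl

theorem img_one (A : Finset (Sym2 (Fin 6))) : img 1 A = A := by
  simp [img]

theorem img_insert (σ : Equiv.Perm (Fin 6)) (A : Finset (Sym2 (Fin 6))) (e : Sym2 (Fin 6)) :
    img σ (insert e A) = insert (Sym2.map σ e) (img σ A) := by
  simp [img]

theorem img_mono (σ : Equiv.Perm (Fin 6)) {A B : Finset (Sym2 (Fin 6))} (h : A ⊆ B) :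
    img σ A ⊆ img σ B := Finset.image_subset_image h

theorem subB_iff (σ : Equiv.Perm (Fin 6)) (a b : ℕ) :
    subB σ a b = true ↔ img σ (dec a) ⊆ dec b := by
  simp only [subB, all6_iff, Bool.or_eq_true, Bool.not_eq_true']
  constructor
  · intro h e he
    obtain ⟨x, y, rfl⟩ := map_surj σ e
    rw [mem_img, mem_dec] at he
    rw [Sym2.map_mk, mem_dec]
    rcases h x y with h | h
    · rw [h] at he; exact absurd he (by simp)
    · exact h
  · intro h x y
    cases hxy : adj a x y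
    · exact Or.inl rfl
    · right
      have := h ((mem_img σ (dec a) s(x, y)).2 ((mem_dec a x y).2 hxy))
      rwa [Sym2.map_mk, mem_dec] at this

theorem eqB_sound (σ : Equiv.Perm (Fin 6)) (a b : ℕ) (h : eqB σ a b = true) :
    img σ (dec a) = dec b := by
  simp only [eqB, all6_iff, beq_iff_eq] at h
  ext e
  obtain ⟨x, y, rfl⟩ := map_surj σ e
  rw [mem_img, mem_dec, Sym2.map_mk, mem_dec, h x y]

theorem injB_sound (f : Fin 6 → Fin 6) (h : injB f = true) :
    ∃ σ : Equiv.Perm (Fin 6), ⇑σ = f := by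
  simp only [injB, all6_iff, Bool.or_eq_true, Bool.not_eq_true'] at h
  have hf : Function.Injective f := by
    intro u v huv
    rcases h u v with h | h
    · rw [← Bool.not_eq_true, beq_iff] at h; exact absurd huv h
    · exact (beq_iff u v).1 h
  exact ⟨Equiv.ofBijective f (Finite.injective_iff_bijective.1 hf), rfl⟩

theorem getD_mem {α : Type} (l : List α) (d : α) (k : ℕ) (h : k < l.length) : l.getD k d ∈ l := by
  rw [List.getD_eq_getElem _ _ h]
  exact List.getElem_mem h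

theorem sep (σ : Equiv.Perm (Fin 6)) {k m : ℕ} (hk : k < 15) (hm : m < 9) :
    ¬ img σ (dec (line k)) ⊆ dec (safe m) := by
  have h := sep_ok
  simp only [sepOK, all6_iff, Bool.or_eq_true, beq_iff] at h
  have ne : ∀ i j : Fin 6, i ≠ j → ¬ σ i = σ j := fun i j hij e => hij (σ.injective e)
  have h1 := (h (σ 0) (σ 1)).resolve_left (ne _ _ (by decide))
  have h2 := (h1 (σ 2)).resolve_left (by simp [ne])
  have h3 := (h2 (σ 3)).resolve_left (by simp [ne])
  have h4 := (h3 (σ 4)).resolve_left (by simp [ne])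
  have h5 := (h4 (σ 5)).resolve_left (by simp [ne])
  have hv : vec (σ 0) (σ 1) (σ 2) (σ 3) (σ 4) (σ 5) = ⇑σ := by
    funext u
    fin_cases u <;> rfl
  rw [hv, List.all_eq_true] at h5
  have h6 := h5 (line k) (getD_mem _ _ _ hk)
  rw [List.all_eq_true] at h6
  have h7 := h6 (safe m) (getD_mem _ _ _ hm)
  rw [← subB_iff]
  simpa using h7

def Lines : Set (Finset (Sym2 (Fin 6))) :=
  {ℓ | ∃ σ : Equiv.Perm (Fin 6), ∃ k < 15, ℓ = img σ (dec (line k))}

def Wins : Set (Finset (Sym2 (Fin 6)) × Finset (Sym2 (Fin 6))) :=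
  {p | (p.1.card = p.2.card ∧ ∃ σ : Equiv.Perm (Fin 6), ∃ j < 193,
          p.1 = img σ (dec (ra j)) ∧ p.2 = img σ (dec (rb j))) ∨
       (p.1.card = p.2.card + 1 ∧ ∃ σ : Equiv.Perm (Fin 6), ∃ j < 193,
          p.1 = img σ (dec (ra2 j)) ∧ p.2 = img σ (dec (rb j)))}

theorem lines_ok (ℓ : Finset (Sym2 (Fin 6))) (h : ℓ ∈ Lines) :
    ℓ.Nonempty ∧ ∀ x ∈ ℓ, ¬ x.IsDiag := by
  obtain ⟨σ, k, hk, rfl⟩ := h
  constructor
  · have h := lines_ne
    rw [List.all_eq_true] at h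
    obtain ⟨x, hx⟩ := any6_iff _ (h (line k) (getD_mem _ _ _ hk))
    obtain ⟨y, hy⟩ := any6_iff _ hx
    exact ⟨_, (mem_img σ _ s(x, y)).2 ((mem_dec _ x y).2 hy)⟩
  · intro e he
    obtain ⟨x, y, rfl⟩ := map_surj σ e
    rw [mem_img] at he
    have := dec_nondiag he
    simpa using this

theorem lines_closed (σ : Equiv.Perm (Fin 6)) (ℓ : Finset (Sym2 (Fin 6))) (h : ℓ ∈ Lines) :
    ℓ.image (Sym2.map ⇑σ) ∈ Lines := by
  obtain ⟨τ, k, hk, rfl⟩ := h
  exact ⟨σ * τ, k, hk, img_img σ τ _⟩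

theorem start_mem : ((∅ : Finset (Sym2 (Fin 6))), (∅ : Finset (Sym2 (Fin 6)))) ∈ Wins := by
  refine Or.inl ⟨rfl, 1, 0, by norm_num, ?_, ?_⟩
  · rw [row_zero.1, dec_zero, img_one]
  · rw [row_zero.2, dec_zero, img_one]

theorem row_ok {j : ℕ} (hj : j < 193) : rowOK j = true := by
  have h := rows_ok
  rw [List.all_eq_true] at h
  exact h j (List.mem_range.2 hj)

theorem first_move (p : Finset (Sym2 (Fin 6)) × Finset (Sym2 (Fin 6))) (hp : p ∈ Wins)
    (hc : p.1.card = p.2.card) :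
    ∃ e : Sym2 (Fin 6), ¬ e.IsDiag ∧ e ∉ p.1 ∧ e ∉ p.2 ∧
      (∀ ℓ ∈ Lines, ¬ ℓ ⊆ insert e p.1) ∧ (insert e p.1, p.2) ∈ Wins := by
  rcases hp with ⟨-, σ, j, hj, h1, h2⟩ | ⟨h, -⟩
  swap
  · omega
  have h := row_ok hj
  simp only [rowOK, Bool.and_eq_true, Bool.not_eq_true'] at h
  obtain ⟨⟨⟨⟨⟨⟨⟨hne, ha⟩, hb⟩, hinj⟩, hlt⟩, hsub⟩, -⟩, -⟩ := h
  have hne' : mu j ≠ mv j := by
    rw [← Bool.not_eq_true, beq_iff] at hne; exact hne
  have he1 : Sym2.map σ s(mu j, mv j) ∉ p.1 := by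
    rw [h1, mem_img, mem_dec, ha]; simp
  have hins : insert (Sym2.map σ s(mu j, mv j)) p.1 = img σ (dec (ra2 j)) := by
    rw [ra2, dec_insert _ hne', img_insert, h1]
  refine ⟨Sym2.map σ s(mu j, mv j), ?_, he1, ?_, ?_, ?_⟩
  · simpa using hne'
  · rw [h2, mem_img, mem_dec, hb]; simp
  · rintro ℓ ⟨ρ, k, hk, rfl⟩ hsubl
    obtain ⟨τ, hτ⟩ := injB_sound _ hinj
    rw [← hτ, subB_iff] at hsub
    rw [Nat.blt_eq] at hlt
    apply sep (τ * σ⁻¹ * ρ) hk hlt
    rw [hins] at hsubl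
    have h3 := img_mono (τ * σ⁻¹) hsubl
    rw [img_img, img_img, inv_mul_cancel_right] at h3
    exact h3.trans hsub
  · refine Or.inr ⟨?_, σ, j, hj, hins, h2⟩
    simp only
    rw [Finset.card_insert_of_notMem he1, hc]

theorem second_move (p : Finset (Sym2 (Fin 6)) × Finset (Sym2 (Fin 6))) (hp : p ∈ Wins)
    (hc : p.1.card = p.2.card + 1) :
    (∃ e : Sym2 (Fin 6), ¬ e.IsDiag ∧ e ∉ p.1 ∧ e ∉ p.2) ∧
      ∀ e : Sym2 (Fin 6), ¬ e.IsDiag → e ∉ p.1 → e ∉ p.2 →
        (∃ ℓ ∈ Lines, ℓ ⊆ insert e p.2) ∨ (p.1, insert e p.2) ∈ Wins := by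
  rcases hp with ⟨h, -⟩ | ⟨-, σ, j, hj, h1, h2⟩
  · omega
  have h := row_ok hj
  simp only [rowOK, Bool.and_eq_true] at h
  obtain ⟨⟨-, hex⟩, hall⟩ := h
  constructor
  · obtain ⟨x, hx⟩ := any6_iff _ hex
    obtain ⟨y, hy⟩ := any6_iff _ hx
    simp only [Bool.and_eq_true, Bool.not_eq_true'] at hy
    obtain ⟨⟨hne, ha⟩, hb⟩ := hy
    have hne' : x ≠ y := by
      rw [← Bool.not_eq_true, beq_iff] at hne; exact hne
    refine ⟨Sym2.map σ s(x, y), by simpa using hne', ?_, ?_⟩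
    · rw [h1, mem_img, mem_dec, ha]; simp
    · rw [h2, mem_img, mem_dec, hb]; simp
  · intro e hd he1 he2
    obtain ⟨x, y, rfl⟩ := map_surj σ e
    have hne : x ≠ y := by simpa using hd
    have hins : insert (Sym2.map σ s(x, y)) p.2 = img σ (dec (rb j ||| 2 ^ pos x y)) := by
      rw [dec_insert _ hne, img_insert, h2]
    have hcard : p.1.card = (insert (Sym2.map σ s(x, y)) p.2).card := by
      rw [Finset.card_insert_of_notMem he2, hc]
    rw [h1, mem_img, mem_dec] at he1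
    rw [h2, mem_img, mem_dec] at he2
    simp only [all6_iff, Bool.or_eq_true, beq_iff] at hall
    have hr := (hall x y).resolve_left (by
      rintro ((h | h) | h)
      · exact hne h
      · exact he1 h
      · exact he2 h)
    generalize ((row j).2.2.2.2.2 >>> (32 * pos x y)) % 4294967296 = c at hr
    simp only [replyOK, Bool.and_eq_true, Bool.or_eq_true, Nat.blt_eq] at hr
    obtain ⟨hinj, hr⟩ := hr
    obtain ⟨ρ, hρ⟩ := injB_sound _ hinj
    rw [← hρ] at hr
    rcases hr with ⟨hk, hs⟩ | ⟨⟨hk, ha⟩, hb⟩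
    · left
      refine ⟨img (σ * ρ) (dec (line (c >>> 18))), ⟨σ * ρ, _, hk, rfl⟩, ?_⟩
      rw [hins, ← img_img]
      exact img_mono σ ((subB_iff _ _ _).1 hs)
    · right
      refine Or.inl ⟨hcard, σ * ρ, c >>> 18, hk, ?_, ?_⟩
      · simp only
        rw [← img_img, eqB_sound _ _ _ ha, h1]
      · simp only
        rw [← img_img, eqB_sound _ _ _ hb, hins]

end Pool.Agent.MP_743f82_co.H61
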